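import Mathlib
import Pool.Agent.H52.UT2
import Pool.Agent.H52.UT3

namespace Pool.Agent.Results.MP_34ced1_al.No
open Pool.Agent.H52.UT1 Pool.Agent.H52.UT2 Pool.Agent.H52.UT3

lemma center {n : ℕ} (φ : H5 →* UT n) (i j : Fin n) (hij : i < j) (h3 : (j : ℕ) < i + 3) :
    mat (φ z0) i j = 0 := by
  have r1 : x1 * y1 = y1 * x1 * z0 := by ext <;> simp [x1, y1, z0]
  have r2 : x2 * y2 = y2 * x2 * z0 := by ext <;> simp [x2, y2, z0]
  have r3 : x1 * x2 = x2 * x1 := by ext <;> simp [x1, x2]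
  have r4 : x1 * y2 = y2 * x1 := by ext <;> simp [x1, y2]
  have r5 : y1 * x2 = x2 * y1 := by ext <;> simp [y1, x2]
  have r6 : y1 * y2 = y2 * y1 := by ext <;> simp [y1, y2]
  have one : ∀ a b : Fin n, (b : ℕ) = a + 1 → mat (φ z0) a b = 0 := by
    intro a b e
    have := congrArg (fun g => mat (φ g) a b) r1
    simp only [map_mul, ent1 _ _ a b e] at this
    linarith
  have hij' : (i : ℕ) < j := hij
  by_cases e : (j : ℕ) = i + 1
  · exact one i j e
  let k : Fin n := ⟨i + 1, by omega⟩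
  have e1 : (k : ℕ) = i + 1 := rfl
  have e2 : (j : ℕ) = k + 1 := by rw [e1]; omega
  have s1 := congrArg (fun g => mat (φ g) i j) r1
  have s2 := congrArg (fun g => mat (φ g) i j) r2
  have s3 := congrArg (fun g => mat (φ g) i j) r3
  have s4 := congrArg (fun g => mat (φ g) i j) r4
  have s5 := congrArg (fun g => mat (φ g) i j) r5
  have s6 := congrArg (fun g => mat (φ g) i j) r6
  simp only [map_mul, ent2 _ _ i k j e1 e2, one k j e2] at s1 s2 s3 s4 s5 s6
  generalize mat (φ x1) i k = a1 at *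
  generalize mat (φ x1) k j = a2 at *
  generalize mat (φ y1) i k = b1 at *
  generalize mat (φ y1) k j = b2 at *
  generalize mat (φ x2) i k = c1 at *
  generalize mat (φ x2) k j = c2 at *
  generalize mat (φ y2) i k = d1 at *
  generalize mat (φ y2) k j = d2 at *
  have t1 : mat (φ z0) i j = a1 * b2 - b1 * a2 := by linarith
  have t2 : mat (φ z0) i j = c1 * d2 - d1 * c2 := by linarith
  have t3 : a1 * c2 - c1 * a2 = 0 := by linarith
  have t4 : a1 * d2 - d1 * a2 = 0 := by linarith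
  have : mat (φ z0) i j * mat (φ z0) i j = 0 := by
    nth_rewrite 1 [t1]; rw [t2]
    linear_combination (b1 * d2 - d1 * b2) * t3 - (b1 * c2 - c1 * b2) * t4
  exact mul_self_eq_zero.mp this

lemma lower {K : Type} [Group K] (e : K ≃* H5) (S : Finset K)
    (hS : Subgroup.closure (S : Set K) = ⊤) :
    ∃ M : ℤ, 0 ≤ M ∧ ∀ g : K, |(e g).z| ≤ M * (wordLength (S : Set K) g : ℤ) ^ 2 := by
  let f : H5 → ℤ := fun x => |x.a| + |x.b| + |x.c| + |x.d| + |x.z|
  have f0 : ∀ x, 0 ≤ f x := fun x => by positivity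
  let B : ℤ := ∑ s ∈ S, (f (e s) + f (e s⁻¹))
  have hB : 0 ≤ B := Finset.sum_nonneg fun s _ => add_nonneg (f0 _) (f0 _)
  have hb : ∀ s ∈ S, f (e s) + f (e s⁻¹) ≤ B := fun s hs =>
    Finset.single_le_sum (f := fun s => f (e s) + f (e s⁻¹))
      (fun s _ => add_nonneg (f0 _) (f0 _)) hs
  refine ⟨B + 2 * B ^ 2, by positivity, fun g => ?_⟩
  obtain ⟨l, hl, rfl, el⟩ := wl_ex hS g
  have := (prod_bound B hB (l.map e) ?_).2.2
  · rw [← el, map_list_prod]; simpa using this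
  · intro x hx
    obtain ⟨y, hy, rfl⟩ := List.mem_map.mp hx
    have h1 : f (e y) ≤ B := by
      rcases hl y hy with h | h
      · linarith [hb y h, f0 (e y⁻¹)]
      · have := hb _ h
        rw [inv_inv] at this
        linarith [f0 (e y⁻¹)]
    simp only [f] at h1
    have := abs_nonneg (e y).a
    have := abs_nonneg (e y).b
    have := abs_nonneg (e y).c
    have := abs_nonneg (e y).d
    have := abs_nonneg (e y).z
    refine ⟨?_, ?_, ?_, ?_, ?_⟩ <;> linarith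

theorem result : (∀ n, Group.FG (UT n)) ∧ ∃ (G : Type) (_ : Group G), Group.FG G ∧ (∀ g : G, IsOfFinOrder g → g = 1) ∧
    Group.IsNilpotent G ∧
      ∀ (n : ℕ) (φ : G →* UT n), Function.Injective φ → ¬ Undistorted φ.range := by
  refine ⟨UT_fg, H5, inferInstance, fg, tf, nil, fun n φ hφ => ?_⟩
  rintro ⟨S, T, hS, hT, C, hC, H⟩
  obtain ⟨M, hM, hlow⟩ := lower (φ.ofInjective hφ).symm S hS
  obtain ⟨D, hD, hup⟩ := upper hT (φ z0) (center φ)
  obtain ⟨L, hL⟩ := exists_nat_gt (max 1 ((M : ℝ) * (C * D + C) ^ 2))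
  have hL1 : (1 : ℝ) < L := (le_max_left _ _).trans_lt hL
  have hL2 : (M : ℝ) * (C * D + C) ^ 2 < L := (le_max_right _ _).trans_lt hL
  have h1 := hlow (φ.ofInjective hφ (z0 ^ (L ^ 3)))
  have h2 := H (φ.ofInjective hφ (z0 ^ (L ^ 3)))
  have h3 := hup L (by exact_mod_cast hL1.le)
  rw [MulEquiv.symm_apply_apply, ← zpow_natCast, zpow_eq z0 (by simp [z0])] at h1
  rw [← zpow_eq z0 (by simp [z0]), zpow_natCast] at h1
  have ez : (z0 ^ (L ^ 3)).z = (L : ℤ) ^ 3 := by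
    rw [← zpow_natCast, zpow_eq z0 (by simp [z0])]; simp [z0]
  rw [ez, abs_of_nonneg (by positivity)] at h1
  have e2 : ((φ.ofInjective hφ (z0 ^ (L ^ 3)) : φ.range) : UT n) = φ z0 ^ (L ^ 3) := by
    rw [MonoidHom.ofInjective_apply, map_pow]
  rw [e2] at h2
  have h1' : (L : ℝ) ^ 3 ≤ M * (wordLength (S : Set φ.range)
      (φ.ofInjective hφ (z0 ^ (L ^ 3))) : ℝ) ^ 2 := by exact_mod_cast h1
  have h3' : (wordLength (T : Set (UT n)) (φ z0 ^ (L ^ 3)) : ℝ) ≤ D * L := by exact_mod_cast h3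
  have hD' : (0 : ℝ) ≤ D := by exact_mod_cast hD
  have hM' : (0 : ℝ) ≤ M := by exact_mod_cast hM
  have h4 : (wordLength (S : Set φ.range) (φ.ofInjective hφ (z0 ^ (L ^ 3))) : ℝ) ≤
      (C * D + C) * L := by nlinarith
  have h5 : (L : ℝ) ^ 3 ≤ M * ((C * D + C) * L) ^ 2 := h1'.trans (by gcongr)
  have h6 : (M : ℝ) * (C * D + C) ^ 2 * L ^ 2 < L * L ^ 2 := by gcongr
  nlinarith

end Pool.Agent.Results.MP_34ced1_al.No
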